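import Pool.Agent.T9h16.QL.Spec2

/-!
# (M) The second moment of the number of `k`-cliques at the threshold
-/

set_option autoImplicit false

namespace Pool.Agent.T9h41.QL

open Finset
open Pool.Agent.T9h16.QL

lemma two_choose (j' i : ℕ) :
    2 * ((j' + 1 + i).choose 2 - (j' + 1).choose 2) = i * (2 * j' + 1 + i) := by
  have h1 : 2 * (j' + 1 + i).choose 2 = (j' + 1 + i) * (j' + i) := by
    have := Nat.choose_two_right (j' + 1 + i)
    have h3 : 2 ∣ (j' + 1 + i) * (j' + 1 + i - 1) := (Nat.even_mul_pred_self _).two_dvd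
    rw [this, Nat.mul_div_cancel' h3]
    congr 1
    omega
  have h2 : 2 * (j' + 1).choose 2 = (j' + 1) * j' := by
    have := Nat.choose_two_right (j' + 1)
    have h3 : 2 ∣ (j' + 1) * (j' + 1 - 1) := (Nat.even_mul_pred_self _).two_dvd
    rw [this, Nat.mul_div_cancel' h3]
    rfl
  rw [Nat.mul_sub, h1, h2]
  have : (j' + 1 + i) * (j' + i) = i * (2 * j' + 1 + i) + (j' + 1) * j' := by ring
  rw [this, Nat.add_sub_cancel]

lemma mid {n k j : ℕ} {p : ℝ} (hp : 0 < p) (hp1 : p ≤ 1) (hj : 1 ≤ j) (hjk : j < k)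
    (hn : 1 ≤ n) (h : p ^ (k - 1) ≤ (2 * k / n) ^ 2) :
    (n : ℝ) ^ (k - j) * p ^ (k.choose 2 - j.choose 2) ≤ (2 * k) ^ k / n := by
  obtain ⟨j', rfl⟩ : ∃ j', j = j' + 1 := ⟨j - 1, by omega⟩
  obtain ⟨i, rfl⟩ : ∃ i, k = j' + 1 + i := ⟨k - (j' + 1), by omega⟩
  have hi : 1 ≤ i := by omega
  have hnR : (1 : ℝ) ≤ n := by exact_mod_cast hn
  have hn0 : (0 : ℝ) < n := by linarith
  obtain ⟨K, hK⟩ : ∃ K : ℝ, K = 2 * ((j' + 1 + i : ℕ) : ℝ) := ⟨_, rfl⟩
  rw [← hK] at h ⊢
  have hK1 : 1 ≤ K := by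
    rw [hK]
    have : (1 : ℝ) ≤ ((j' + 1 + i : ℕ) : ℝ) := by exact_mod_cast (by omega : 1 ≤ j' + 1 + i)
    linarith
  have hK0 : 0 < K := by linarith
  rw [show j' + 1 + i - (j' + 1) = i by omega]
  rw [show j' + 1 + i - 1 = j' + i by omega] at h
  have hmain : (n : ℝ) ^ 2 * p ^ (j' + i) ≤ K ^ 2 := by
    calc (n : ℝ) ^ 2 * p ^ (j' + i) ≤ (n : ℝ) ^ 2 * (K / n) ^ 2 := by gcongr
      _ = K ^ 2 := by field_simp
  have hx : ((n : ℝ) ^ i * p ^ ((j' + 1 + i).choose 2 - (j' + 1).choose 2)) ^ 2 ≤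
      (K ^ (j' + 1 + i) / n) ^ 2 := by
    calc ((n : ℝ) ^ i * p ^ ((j' + 1 + i).choose 2 - (j' + 1).choose 2)) ^ 2
        = (n : ℝ) ^ (2 * i) * p ^ (2 * ((j' + 1 + i).choose 2 - (j' + 1).choose 2)) := by
          rw [mul_pow, ← pow_mul, ← pow_mul, mul_comm i 2, mul_comm _ 2]
      _ = ((n : ℝ) ^ 2 * p ^ (j' + i) * p ^ (j' + 1)) ^ i := by
          rw [two_choose, pow_mul, mul_comm i (2 * j' + 1 + i), pow_mul p, ← mul_pow, mul_assoc,
            ← pow_add, show 2 * j' + 1 + i = j' + i + (j' + 1) by omega]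
      _ ≤ (K ^ 2 * p ^ (j' + 1)) ^ i := by gcongr
      _ = (K ^ i) ^ 2 * p ^ ((j' + 1) * i) := by
          rw [mul_pow, ← pow_mul, ← pow_mul, ← pow_mul, mul_comm 2 i]
      _ ≤ (K ^ i) ^ 2 * p ^ (j' + i) := by
          refine mul_le_mul_of_nonneg_left ?_ (by positivity)
          refine pow_le_pow_of_le_one hp.le hp1 ?_
          nlinarith
      _ ≤ (K ^ i) ^ 2 * (K / n) ^ 2 := by gcongr
      _ = (K ^ (i + 1) / n) ^ 2 := by
          rw [← mul_pow, pow_succ]
          ring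
      _ ≤ (K ^ (j' + 1 + i) / n) ^ 2 := by
          have : K ^ (i + 1) ≤ K ^ (j' + 1 + i) := pow_le_pow_right₀ hK1 (by omega)
          gcongr
  exact (pow_le_pow_iff_left₀ (by positivity) (by positivity) two_ne_zero).1 hx

/-- lower bound for the binomial coefficient. -/
lemma choose_ge {n k : ℕ} (hk : 1 ≤ k) (hn : 2 * k ≤ n) :
    ((n : ℝ) / (2 * k)) ^ k ≤ n.choose k := by
  have h1 : (((n + 1 - k : ℕ) : ℝ)) ^ k / (k.factorial : ℝ) ≤ n.choose k := Nat.pow_le_choose k n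
  have hk0 : (0 : ℝ) < k := by exact_mod_cast hk
  have hf : (0 : ℝ) < k.factorial := by exact_mod_cast k.factorial_pos
  have hf2 : (k.factorial : ℝ) ≤ (k : ℝ) ^ k := by exact_mod_cast Nat.factorial_le_pow k
  refine le_trans ?_ h1
  have h2 : (n : ℝ) / 2 ≤ ((n + 1 - k : ℕ) : ℝ) := by
    rw [Nat.cast_sub (by omega)]
    push_cast
    have : (2 : ℝ) * k ≤ n := by exact_mod_cast hn
    linarith
  calc ((n : ℝ) / (2 * k)) ^ k = ((n : ℝ) / 2) ^ k / (k : ℝ) ^ k := by
        rw [← div_pow]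
        congr 1
        field_simp
    _ ≤ (((n + 1 - k : ℕ) : ℝ)) ^ k / (k : ℝ) ^ k := by gcongr
    _ ≤ _ := by gcongr

theorem stThr : StThr := by
  intro k hk
  refine ⟨k * (2 ^ (k + 2) * (2 * k) ^ k) + 2 * k + 2 ^ (k + 1), ?_⟩
  intro n a L hn ha haL hM1 hM2
  have hn2k : 2 * k ≤ n :=
    (Nat.le_add_left _ _).trans ((Nat.le_add_right _ _).trans hn)
  have hnbig : k * (2 ^ (k + 2) * (2 * k) ^ k) ≤ n :=
    (Nat.le_add_right _ _).trans ((Nat.le_add_right _ _).trans hn)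
  have hnpow : 2 ^ (k + 1) ≤ n := (Nat.le_add_left _ _).trans hn
  have hn1 : 1 ≤ n := by omega
  have hn0 : (0 : ℝ) < n := by exact_mod_cast hn1
  have haR : (0 : ℝ) < a := by exact_mod_cast ha
  have hLR : (0 : ℝ) < L := by exact_mod_cast (by omega : 0 < L)
  obtain ⟨p, hpd⟩ : ∃ p : ℝ, p = (a : ℝ) / L := ⟨_, rfl⟩
  rw [← hpd] at hM1 hM2 ⊢
  have hp : 0 < p := by rw [hpd]; positivity
  have hp1 : p ≤ 1 := by
    rw [hpd, div_le_one hLR]
    exact_mod_cast haL
  have hk0 : (0 : ℝ) < k := by exact_mod_cast (by omega : 0 < k)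
  have hch := choose_ge (by omega : 1 ≤ k) hn2k
  obtain ⟨M, hMd⟩ : ∃ M : ℝ, M = meanCl n k p := ⟨_, rfl⟩
  have hMdef : M = (n.choose k : ℝ) * p ^ (k.choose 2) := hMd
  rw [← hMd] at hM1 hM2
  have hM0 : 0 < M := by linarith
  -- the upper bound for `p`
  have hpk : p ^ (k - 1) ≤ (2 * k / n) ^ 2 := by
    have h1 : p ^ (k.choose 2) ≤ (2 * k / n) ^ k := by
      have h2 : ((n : ℝ) / (2 * k)) ^ k * p ^ (k.choose 2) ≤ 1 := by
        calc ((n : ℝ) / (2 * k)) ^ k * p ^ (k.choose 2) ≤ (n.choose k : ℝ) * p ^ (k.choose 2) := by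
              gcongr
          _ ≤ 1 := by rw [← hMdef]; linarith
      calc p ^ (k.choose 2) = (2 * k / n) ^ k * (((n : ℝ) / (2 * k)) ^ k * p ^ (k.choose 2)) := by
            rw [← mul_assoc, ← mul_pow]
            have : (2 * (k : ℝ) / n) * (n / (2 * k)) = 1 := by field_simp
            rw [this, one_pow, one_mul]
        _ ≤ (2 * k / n) ^ k * 1 := by gcongr
        _ = _ := mul_one _
    have h3 : (p ^ (k - 1)) ^ k ≤ ((2 * k / n) ^ 2) ^ k := by
      calc (p ^ (k - 1)) ^ k = (p ^ (k.choose 2)) ^ 2 := by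
            rw [← pow_mul, ← pow_mul]
            congr 1
            have h3 : 2 ∣ k * (k - 1) := (Nat.even_mul_pred_self _).two_dvd
            rw [Nat.choose_two_right, Nat.div_mul_cancel h3, mul_comm]
        _ ≤ ((2 * k / n) ^ k) ^ 2 := by gcongr
        _ = _ := by rw [← pow_mul, ← pow_mul, mul_comm k 2]
    exact (pow_le_pow_iff_left₀ (by positivity) (by positivity) (by omega : k ≠ 0)).1 h3
  constructor
  · -- the second moment
    have hterm : ∀ j ∈ Ico 1 k, ((k.choose j * (n - k).choose (k - j) : ℕ) : ℝ) *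
        p ^ (k.choose 2 - j.choose 2) / M ≤ 2 ^ (k + 2) * (2 * k) ^ k / n := by
      intro j hj
      obtain ⟨hj1, hj2⟩ := mem_Ico.1 hj
      have hmid := mid hp hp1 hj1 hj2 hn1 hpk
      have h1 : (k.choose j : ℝ) ≤ 2 ^ k := by exact_mod_cast Nat.choose_le_two_pow k j
      have h2 : ((n - k).choose (k - j) : ℝ) ≤ (n : ℝ) ^ (k - j) := by
        have h3 : (n - k).choose (k - j) ≤ (n - k) ^ (k - j) := Nat.choose_le_pow _ _
        have h4 : (n - k) ^ (k - j) ≤ n ^ (k - j) := Nat.pow_le_pow_left (Nat.sub_le _ _) _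
        exact_mod_cast h3.trans h4
      rw [div_le_iff₀ hM0]
      push_cast
      calc (k.choose j : ℝ) * ((n - k).choose (k - j) : ℝ) * p ^ (k.choose 2 - j.choose 2)
          ≤ 2 ^ k * (n : ℝ) ^ (k - j) * p ^ (k.choose 2 - j.choose 2) := by gcongr
        _ = 2 ^ k * ((n : ℝ) ^ (k - j) * p ^ (k.choose 2 - j.choose 2)) := by ring
        _ ≤ 2 ^ k * ((2 * k) ^ k / n) := by gcongr
        _ = 2 ^ (k + 2) * (2 * k) ^ k / n * (1 / 4) := by
            rw [pow_add]
            ring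
        _ ≤ 2 ^ (k + 2) * (2 * k) ^ k / n * M := by gcongr
    have hsum : ∑ j ∈ Ico 1 k, ((k.choose j * (n - k).choose (k - j) : ℕ) : ℝ) *
        p ^ (k.choose 2 - j.choose 2) / M ≤ 1 := by
      refine (Finset.sum_le_sum hterm).trans ?_
      rw [Finset.sum_const, Nat.card_Ico, nsmul_eq_mul]
      have h1 : ((k - 1 : ℕ) : ℝ) ≤ k := by exact_mod_cast Nat.sub_le _ _
      have h2 : (k : ℝ) * (2 ^ (k + 2) * (2 * k) ^ k) ≤ n := by exact_mod_cast hnbig
      calc ((k - 1 : ℕ) : ℝ) * (2 ^ (k + 2) * (2 * k) ^ k / n)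
          ≤ k * (2 ^ (k + 2) * (2 * k) ^ k / n) := by gcongr
        _ = (k * (2 ^ (k + 2) * (2 * k) ^ k)) / n := by ring
        _ ≤ 1 := by
            rw [div_le_one hn0]
            exact h2
    have hzero : ((k.choose 0 * (n - k).choose (k - 0) : ℕ) : ℝ) *
        p ^ (k.choose 2 - Nat.choose 0 2) / M ≤ 1 := by
      rw [div_le_one hM0, hMdef, Nat.choose_zero_right, one_mul, Nat.sub_zero,
        Nat.choose_eq_zero_of_lt (by norm_num : 0 < 2), Nat.sub_zero]
      have : (n - k).choose k ≤ n.choose k := Nat.choose_le_choose k (Nat.sub_le _ _)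
      have h2 : ((n - k).choose k : ℝ) ≤ (n.choose k : ℝ) := by exact_mod_cast this
      gcongr
    have hlast : ((k.choose k * (n - k).choose (k - k) : ℕ) : ℝ) *
        p ^ (k.choose 2 - k.choose 2) / M ≤ 4 := by
      rw [Nat.choose_self, Nat.sub_self, Nat.choose_zero_right, Nat.sub_self, pow_zero,
        div_le_iff₀ hM0]
      push_cast
      linarith
    unfold ratio2
    rw [← hMd, Finset.sum_range_succ, Finset.range_eq_Ico,
      Finset.sum_eq_sum_Ico_succ_bot (by omega : 0 < k)]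
    rw [zero_add]
    linarith
  · -- the logarithm
    have hlow : 1 / 4 ≤ (n : ℝ) ^ k * p ^ (k.choose 2) := by
      refine hM1.trans ?_
      rw [hMdef]
      have : (n.choose k : ℝ) ≤ (n : ℝ) ^ k := by exact_mod_cast Nat.choose_le_pow n k
      gcongr
    have hlog := Real.log_le_log (by norm_num) hlow
    rw [Real.log_mul (by positivity) (by positivity), Real.log_pow, Real.log_pow] at hlog
    have h4 : Real.log (1 / 4) = -(2 * Real.log 2) := by
      rw [one_div, Real.log_inv, show (4 : ℝ) = 2 ^ 2 by norm_num, Real.log_pow]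
      push_cast
      ring
    have hcast : ((k.choose 2 : ℕ) : ℝ) = k * (k - 1) / 2 := Nat.cast_choose_two ℝ k
    rw [h4, hcast] at hlog
    have hlogn : ((k : ℝ) + 1) * Real.log 2 ≤ Real.log n := by
      have := Real.log_le_log (by positivity) (by exact_mod_cast hnpow : (2 : ℝ) ^ (k + 1) ≤ n)
      rw [Real.log_pow] at this
      push_cast at this
      linarith
    have hl2 : 0 < Real.log 2 := Real.log_pos (by norm_num)
    have hk1 : (0 : ℝ) < (k : ℝ) - 1 := by
      have : (3 : ℝ) ≤ k := by exact_mod_cast hk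
      linarith
    have hrew : Real.log (2 * L / a) = Real.log 2 - Real.log p := by
      rw [hpd, Real.log_div (by positivity) (by positivity), Real.log_mul (by norm_num) (by positivity),
        Real.log_div (by positivity) (by positivity)]
      ring
    rw [hrew, div_mul_eq_mul_div, le_div_iff₀ hk1]
    have hk3 : (3 : ℝ) ≤ k := by exact_mod_cast hk
    -- multiply by `k`
    have h5 : (k : ℝ) * ((Real.log 2 - Real.log p) * (k - 1)) ≤ k * (3 * Real.log n) := by
      nlinarith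
    exact le_of_mul_le_mul_left h5 hk0

end Pool.Agent.T9h41.QL
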