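import Pool.Agent.T9h16.QL.Spec

/-!
# (F3) The bad event, inner gates
-/

set_option autoImplicit false

namespace Pool.Agent.T9h41.QL

open Finset
open Pool.Agent.PC34 (prob)
open Pool.Agent.T9h34.Q
open Pool.Agent.T9h16.QL

lemma prob_le_one' {Ω : Type} [Fintype Ω] (A : Ω → Prop) : prob A ≤ 1 := by
  classical
  unfold prob
  refine div_le_one_of_le₀ ?_ (Nat.cast_nonneg _)
  exact_mod_cast Finset.card_le_univ _

/-- **(F3)** -/
theorem stBadIn : StExchL → StShapeL → StBadL → StBadIn := by
  intro hExch hShape hBad V _ _ _ L a₀ B d m k h1 h2 hk t q lo hi htq hlo hhi hm h hmono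
  have key := hBad V L a₀ B d m k h1 h2 hk t q lo hi h 1 zero_le_one
    fun a j ha hj0 hj F A hF hA => hShape V L a₀ B d m j a h1 h2 h hmono 1 F A hF hA
      fun C par hAC hpar hleaf =>
        (hExch V L a₀ B d m j a (by omega) (by omega) (by omega) (by omega) hm h hmono C A par hAC
          hpar hleaf).trans (prob_le_one' _)
  rwa [one_mul] at key

end Pool.Agent.T9h41.QL
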